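import Pool.Agent.Lib.MP_708c97_co.Example

set_option autoImplicit false

open Pool.Agent.Lib.MP_708c97_co

/-- There is a chordal graph on `n = 17` vertices with clique number `ω = 3` whose `k`-path vertex
cover number for `k = 6` exceeds `(ω - 1) / (ω + k - 2) * n`. -/
theorem Pool.Agent.Results.MP_708c97_co.Counterexample.result :
    ∃ (k n : ℕ) (G : SimpleGraph (Fin n)), k = 6 ∧ n = 17 ∧ G.cliqueNum = 3 ∧ IsChordal G ∧
      ((G.cliqueNum : ℚ) - 1) / ((G.cliqueNum : ℚ) + k - 2) * n < (psi G k : ℚ) := by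
  refine ⟨6, 17, G17, rfl, rfl, G17_cliqueNum, G17_chordal, ?_⟩
  rw [G17_cliqueNum]
  have h : (5 : ℚ) ≤ (psi G17 6 : ℚ) := by exact_mod_cast G17_psi
  refine lt_of_lt_of_le ?_ h
  norm_num
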