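import Pool.Agent.Lib.MP_708c97_co.Upper
import Pool.Agent.Lib.MP_708c97_co.Lower

set_option autoImplicit false

open Pool.Agent.Lib.MP_708c97_co

/-- For `ω ≥ 3` and `k ≥ 1` the supremum of `ψ_k(G) / n` over the chordal graphs of clique number
`ω` equals `ω / (k + ω + θ)` for some `θ` between `-1` and `5`. -/
theorem Pool.Agent.Results.MP_708c97_co.SharpOrder.result (ω k : ℕ) (hω : 3 ≤ ω) (hk : 1 ≤ k) :
    ∃ θ : ℝ, -1 ≤ θ ∧ θ ≤ 5 ∧
      IsLUB {r : ℝ | ∃ (V : Type) (_ : Fintype V) (G : SimpleGraph V),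
        IsChordal G ∧ G.cliqueNum = ω ∧ r = (psi G k : ℝ) / Fintype.card V} (ω / (k + ω + θ)) := by
  obtain ⟨t, rfl⟩ : ∃ t, ω = t + 1 := ⟨ω - 1, by omega⟩
  have ht : 2 ≤ t := by omega
  have hk' : (0 : ℝ) < (k + t : ℕ) := by exact_mod_cast (by omega : 0 < k + t)
  set A := {r : ℝ | ∃ (V : Type) (_ : Fintype V) (G : SimpleGraph V),
    IsChordal G ∧ G.cliqueNum = t + 1 ∧ r = (psi G k : ℝ) / Fintype.card V} with hA
  have hub : ((t + 1 : ℕ) : ℝ) / (k + t : ℕ) ∈ upperBounds A := by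
    rintro r ⟨V, _, G, h1, h2, rfl⟩
    have h3 := psi_upper h1 k
    rw [h2, show k - 1 + (t + 1) = k + t by omega] at h3
    rcases Nat.eq_zero_or_pos (Fintype.card V) with h4 | h4
    · rw [h4, Nat.cast_zero, div_zero]
      positivity
    · rw [div_le_div_iff₀ (by exact_mod_cast h4) hk', mul_comm]
      exact_mod_cast h3
  have hmem : ∀ N a : ℕ, 0 < N → (psi (fcat t N (t + 2 + a)) k : ℝ) /
      Fintype.card (Fin N × Fin (t + 2 + a)) ∈ A := fun N a hN =>
    ⟨_, inferInstance, _, fcat_chordal _, fcat_cliqueNum ht hN _ (by omega), rfl⟩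
  have h2 := isLUB_csSup ⟨_, hmem 1 0 one_pos⟩ ⟨_, hub⟩
  have h3 := h2.2 hub
  have h1 : ∀ N a : ℕ, 0 < N →
      (psi (fcat t N (t + 2 + a)) k : ℝ) ≤ sSup A * (N * (t + 2 + a : ℕ)) := fun N a hN => by
    have h4 := h2.1 (hmem N a hN)
    rwa [Fintype.card_prod, Fintype.card_fin, Fintype.card_fin, div_le_iff₀ (by positivity),
      Nat.cast_mul] at h4
  have h0 : 0 ≤ sSup A := le_trans (by positivity) (h2.1 (hmem 1 0 one_pos))
  have h4 : (t : ℝ) + 1 ≤ sSup A * (k + t + 6) := by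
    by_cases hkt : t ≤ k + 2
    · obtain ⟨a, ha, ha'⟩ : ∃ a, k + 1 ≤ 2 * a + t ∧ 2 * (t + 2 + a) ≤ k + t + 6 :=
        ⟨(k + 2 - t) / 2, by omega, by omega⟩
      by_contra hn
      rw [not_le, ← sub_pos] at hn
      obtain ⟨N, hN⟩ := exists_nat_gt (((t : ℝ) + 1) / (t + 1 - sSup A * (k + t + 6)))
      have hN0 : (0 : ℝ) < N := lt_trans (by positivity) hN
      rw [div_lt_iff₀ hn] at hN
      have h5 := h1 N a (by exact_mod_cast hN0)
      have h6 : ((t : ℝ) + 1) * N ≤ 2 * psi (fcat t N (t + 2 + a)) k + (t + 1) := by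
        exact_mod_cast fcat_psi (N := N) ht a k hk ha
      have h7 : (2 : ℝ) * (t + 2 + a : ℕ) ≤ k + t + 6 := by exact_mod_cast ha'
      have h8 := mul_le_mul_of_nonneg_left h7 (mul_nonneg h0 hN0.le)
      linarith
    · have h5 := h1 1 (k - 1) one_pos
      have h6 : (t : ℝ) ≤ psi (fcat t 1 (t + 2 + (k - 1))) k := by
        exact_mod_cast fcat_psi_one ht (k - 1) k hk (by omega)
      have h7 := h6.trans h5
      rw [show t + 2 + (k - 1) = k + t + 1 by omega] at h7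
      have h8 : (k : ℝ) + 2 < t := by exact_mod_cast not_le.1 hkt
      have h9 : (0 : ℝ) ≤ k := by positivity
      push_cast at h7
      by_contra hn
      have h10 : 5 * sSup A < 1 := by linarith
      nlinarith
  have h5 : 0 < sSup A := by
    refine h0.lt_of_ne fun h => ?_
    rw [← h, zero_mul] at h4
    exact absurd h4 (not_le.2 (by positivity))
  rw [le_div_iff₀' hk', ← le_div_iff₀ h5] at h3
  rw [← div_le_iff₀' h5] at h4
  refine ⟨(t + 1 : ℕ) / sSup A - (k + (t + 1 : ℕ)), ?_, ?_, ?_⟩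
  · push_cast at h3 ⊢
    linarith
  · push_cast
    linarith
  · rwa [add_sub_cancel, div_div_cancel₀ (by positivity)]
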